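import Mathlib
import Pool.Agent.H519R2.Homo.Lower

set_option autoImplicit false

/-!
# MP_c650fd_co: homothets of prescribed total volume, every convex body in every dimension

For every `n ≥ 2` and every convex body `K` in `ℝ^n` (symmetric or not) every finite family of
positive homothets of `K` of total volume at least `3 · 2^n · n · log (n² + n)` times the volume
of `K` can be translated so as to cover `K`; so `f_n(K) ≤ 3 · 2^n · n · log (n² + n)`. The cube
shows that the base `2` cannot be lowered: the maximum `F n` of `f_n(K)` over all convex bodies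
satisfies `2^n - 1 ≤ F n ≤ 3 · 2^n · n · log (n² + n)`, hence `(F n)^(1/n) → 2`.

Proof. If `X, X'` are independent random points of a measurable set `A ⊆ m K`, then the expected
volume of `(X + lK) ∩ (X' + lK)` is at least `|lK|² / |(m + l) K|` (Cauchy-Schwarz), so some
translate of `lK` contains a share `(l / (m + l))^n` of `A`. Place slightly shrunken copies of the
large homothets greedily; the remaining (smaller) homothets are then placed at uncovered points,
each of them consumes its share of the uncovered volume.
-/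

namespace Pool.Agent.Results.MP_c650fd_co.AllConvexBodies

open Pool.Agent.H519R2.Homo Filter Topology MeasureTheory

/-- **Main theorem.** -/
theorem result :
    (∀ n : ℕ, 2 ≤ n → ∀ K : Set (EuclideanSpace ℝ (Fin n)),
      Convex ℝ K → IsCompact K → (interior K).Nonempty →
        (∀ (N : ℕ) (lam : Fin N → ℝ), (∀ i, 0 < lam i) →
          3 * 2 ^ n * (n * Real.log ((n : ℝ) ^ 2 + n)) ≤ ∑ i, lam i ^ n →
            ∃ x : Fin N → EuclideanSpace ℝ (Fin n), K ⊆ ⋃ i, (fun k => lam i • k + x i) '' K) ∧
        f K ≤ 3 * 2 ^ n * (n * Real.log ((n : ℝ) ^ 2 + n))) ∧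
    (∀ n : ℕ, 2 ≤ n → (2 : ℝ) ^ n - 1 ≤ F n ∧
      F n ≤ 3 * 2 ^ n * (n * Real.log ((n : ℝ) ^ 2 + n))) ∧
    Tendsto (fun n : ℕ => F n ^ (1 / (n : ℝ))) atTop (𝓝 2) := by
  refine ⟨fun n hn K hK hKc hKi => ⟨?_, f_le n hn K hK hKc hKi⟩,
    fun n hn => ⟨le_F n hn, F_le n hn⟩, F_growth⟩
  intro N lam hlam hV
  exact covers_of_le n hn K hK hKc hKi N lam hlam hV

end Pool.Agent.Results.MP_c650fd_co.AllConvexBodies
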